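import Pool.Agent.TH439.CP3

/-!
# Zero-cycles of degree one: points over cyclic extensions of prime degree suffice

Let `X` be a smooth projective geometrically integral variety over a global field `k`, and let `F`
run over the finite extensions of `k` inside a separable closure `Ω`. Call `(F, p)` special if `p`
is a prime number, `F` contains the `p`-th roots of unity (if `p` is not the characteristic) and,
if `p` is odd, the 4-th roots of unity, `X` has points over all completions of `F`, and
`X(K) ≠ ∅` for a cyclic extension `K/F` of degree `p`.

1. Suppose that `X_F` has a family of local zero-cycles of degree 1 orthogonal to `Br(X_F)` and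
   that the prime `p` divides the index of `X_F`. Then there is a finite extension `F'` of `F` such
   that the same holds for `X_{F'}` and `(F', p)` is special.
2. The Brauer-Manin obstruction is the only obstruction to the existence of a zero-cycle of degree
   1 on `X_F` for all `F` if and only if, for all special `(F, p)` such that `X_F` has an orthogonal
   family of local zero-cycles of degree 1, `p` does not divide the index of `X_F`.
3. If `X` has Liang's property (e.g. `X` is rationally connected and `k` a number field), it even
   suffices that, for all special `(F, p)` with `X(A_F)^Br ≠ ∅`, `p` does not divide the index of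
   `X_F` (for example, that `X(F) ≠ ∅`).
-/

set_option autoImplicit false

open Pool.Agent.TH439.CP

universe u v

namespace Pool.Agent.Results.MP_340908_nt.CyclicPointsSuffice

/-- **Points over cyclic extensions of prime degree suffice.** -/
theorem result (k Ω : Type u) [Field k] [Field Ω] [Algebra k Ω] [IsGalois k Ω] [IsSepClosed Ω]
    (X : BrauerManinData.{u, v} k Ω) :
    (∀ F : IntermediateField k Ω, FiniteDimensional k F → X.BMCycle F →
      ∀ p : ℕ, p.Prime → X.DvdIndex p F →
        ∃ F' : IntermediateField k Ω, F ≤ F' ∧ FiniteDimensional k F' ∧ X.BMCycle F' ∧
          X.Special p F' ∧ X.DvdIndex p F') ∧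
    (X.Q1 ↔ X.SpecialCycles) ∧
    (X.LiangProperty → X.SpecialPoints → X.Q1) :=
  ⟨fun F hF hB p hp hd => X.exists_special F hF hB p hp hd, X.result_cycles,
    fun hL h => X.result_points hL h⟩

end Pool.Agent.Results.MP_340908_nt.CyclicPointsSuffice
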